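import Mathlib
import Pool.Agent.Run7.h566.BL.Place
import Pool.Agent.Run7.h566.BL.Words
import Pool.Agent.Run7.h566.ML.Place

/-! Almost all members of well distributed families have orbits which are dense at small scales. -/

set_option autoImplicit false

open Finset
open scoped Classical

namespace Pool.Agent.Run7.h566.FD

open Pool.Agent.R544.EM (word word_eq word_nonneg word_lt)
open Pool.Agent.Run7.h566.BL (miss inf_often)
open Pool.Agent.Run7.h566.ML (val pts cube card_cube Free)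

/-- every interval of the length `ρ` contains the fractional part of `z b ^ q` for infinitely many `q` -/
def Dn (ρ : ℝ) (b : ℕ) (z : ℝ) : Prop :=
  ∀ u : ℝ, 0 ≤ u → u + ρ ≤ 1 → {q : ℕ | u ≤ Int.fract (z * (b : ℝ) ^ q) ∧
    Int.fract (z * (b : ℝ) ^ q) < u + ρ}.Infinite

lemma Dn_mono {ρ ρ' : ℝ} (h : ρ ≤ ρ') {b : ℕ} {z : ℝ} (hd : Dn ρ b z) : Dn ρ' b z := by
  intro u hu hu1
  refine (hd u hu (by linarith)).mono fun q hq => ⟨hq.1, by linarith [hq.2]⟩

/-- words and intervals -/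
lemma Dn_of_words (b : ℕ) (hb : 2 ≤ b) (k : ℕ) (z : ℝ)
    (h : ∀ w : ℤ, 0 ≤ w → w < (b : ℤ) ^ k → {q : ℕ | word b k z q = w}.Infinite) :
    Dn (2 / (b : ℝ) ^ k) b z := by
  intro u hu hu1
  have hbk : (0 : ℝ) < (b : ℝ) ^ k := by positivity
  set w : ℤ := ⌈u * (b : ℝ) ^ k⌉ with hw
  have h1 : u * (b : ℝ) ^ k ≤ w := Int.le_ceil _
  have h2 : (w : ℝ) < u * (b : ℝ) ^ k + 1 := Int.ceil_lt_add_one _
  have h3 : (u + 2 / (b : ℝ) ^ k) * (b : ℝ) ^ k = u * (b : ℝ) ^ k + 2 := by field_simp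
  have h4 : u * (b : ℝ) ^ k + 2 ≤ (b : ℝ) ^ k := by
    rw [← h3]
    nlinarith
  have hw0 : 0 ≤ w := by
    rw [hw]
    exact Int.ceil_nonneg (by positivity)
  have hw1 : w < (b : ℤ) ^ k := by
    have : (w : ℝ) < (((b : ℤ) ^ k : ℤ) : ℝ) := by
      push_cast
      linarith
    exact_mod_cast this
  refine (h w hw0 hw1).mono fun q hq => ?_
  have hq' : word b k z q = w := hq
  rw [word_eq b hb, Int.floor_eq_iff] at hq'
  obtain ⟨h5, h6⟩ := hq'
  constructor
  · have : u * (b : ℝ) ^ k ≤ Int.fract (z * (b : ℝ) ^ q) * (b : ℝ) ^ k := h1.trans h5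
    exact le_of_mul_le_mul_right this hbk
  · have : Int.fract (z * (b : ℝ) ^ q) * (b : ℝ) ^ k < (u + 2 / (b : ℝ) ^ k) * (b : ℝ) ^ k := by
      rw [h3]
      linarith
    exact lt_of_mul_lt_mul_right this hbk.le

/-- the lengths of the words and of the windows, growing with `M` -/
lemma grow (b : ℕ) (hb : 2 ≤ b) (κ : ℝ) (hκ : 0 < κ) :
    ∃ c C : ℝ, 0 < c ∧ 0 < C ∧ ∀ M : ℕ, 2 ≤ M → ∃ k l : ℕ,
      2 / (b : ℝ) ^ k ≤ 2 * b / (Real.log M) ^ (1 / 4 : ℝ) ∧ ∀ D : ℝ, 0 ≤ D →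
      (b : ℝ) ^ k * (((b : ℝ) ^ k - 1) ^ l * (1 / (b : ℝ) ^ (k * l) + D * (M : ℝ) ^ (-κ))) ≤
        C * (1 + D) * Real.exp (-(c * Real.sqrt (Real.log M))) := by
  have hbR : (2 : ℝ) ≤ b := by exact_mod_cast hb
  have hb1 : 1 < b := by omega
  refine ⟨κ / 8, (8 / κ + 2) * Real.exp (1 + κ), by positivity, by positivity, fun M hM => ?_⟩
  have hMR : (2 : ℝ) ≤ M := by exact_mod_cast hM
  have hM0 : (0 : ℝ) < M := by linarith
  set L : ℝ := Real.log M with hL
  have hL0 : 0 < L := Real.log_pos (by linarith)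
  set r : ℝ := L ^ (1 / 4 : ℝ) with hr
  have hr0 : 0 < r := Real.rpow_pos_of_pos hL0 _
  set s : ℝ := Real.sqrt L with hs
  have hs0 : 0 < s := Real.sqrt_pos.2 hL0
  have hss : s * s = L := Real.mul_self_sqrt hL0.le
  have hrr : r * r = s := by
    rw [hr, hs, ← Real.rpow_add hL0, Real.sqrt_eq_rpow]
    norm_num
  set n0 : ℕ := ⌊r⌋₊ + 1 with hn0
  have hn1 : r < n0 := by
    rw [hn0]
    push_cast
    exact Nat.lt_floor_add_one r
  have hn2 : (n0 : ℝ) ≤ r + 1 := by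
    rw [hn0]
    push_cast
    have := Nat.floor_le hr0.le
    linarith
  set k : ℕ := Nat.log b n0 with hk
  have hk1 : b ^ k ≤ n0 := Nat.pow_log_le_self b (by omega)
  have hk2 : n0 < b ^ (k + 1) := Nat.lt_pow_succ_log_self hb1 n0
  set β : ℝ := (b : ℝ) ^ k with hβ
  have hβ1 : 1 ≤ β := one_le_pow₀ (by linarith)
  have hβ0 : 0 < β := by linarith
  have hβn : β ≤ r + 1 := by
    have : β ≤ n0 := by
      rw [hβ]
      exact_mod_cast hk1
    linarith
  have hβr : r < β * b := by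
    have h1 : (n0 : ℝ) < (b : ℝ) ^ (k + 1) := by exact_mod_cast hk2
    rw [pow_succ] at h1
    linarith
  set z : ℝ := κ * L / (2 * β) with hz
  have hz0 : 0 ≤ z := by positivity
  refine ⟨k, ⌊z⌋₊, ?_, fun D hD => ?_⟩
  · rw [div_le_div_iff₀ hβ0 hr0]
    nlinarith
  set l := ⌊z⌋₊ with hl
  have hl1 : (l : ℝ) ≤ z := Nat.floor_le hz0
  have hl2 : z < l + 1 := Nat.lt_floor_add_one z
  have hkl : (b : ℝ) ^ (k * l) = β ^ l := by rw [hβ, pow_mul]
  rw [hkl]
  have hMκ : (M : ℝ) ^ (-κ) = Real.exp (-(κ * L)) := by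
    rw [Real.rpow_def_of_pos hM0]
    congr 1
    rw [hL]
    ring
  -- the length
  have h1 : β ^ l ≤ Real.exp (κ * L / 2) := by
    have h2 : β ^ l = Real.exp (l * Real.log β) := by
      rw [Real.exp_nat_mul, Real.exp_log hβ0]
    have h3 : Real.log β ≤ β := (Real.log_le_sub_one_of_pos hβ0).trans (by linarith)
    have h4 : 0 ≤ Real.log β := Real.log_nonneg hβ1
    rw [h2, Real.exp_le_exp]
    calc (l : ℝ) * Real.log β ≤ z * β := by gcongr
      _ = κ * L / 2 := by rw [hz]; field_simp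
  -- `l / β` is large
  have h2 : κ / 4 * s - κ / 4 - 1 ≤ l / β := by
    have h3 : z / β - 1 ≤ l / β := by
      have h4 : (z - 1) / β ≤ l / β := by
        apply div_le_div_of_nonneg_right _ hβ0.le
        linarith
      have h5 : (z - 1) / β = z / β - 1 / β := by ring
      have h6 : 1 / β ≤ 1 := by rw [div_le_one hβ0]; exact hβ1
      linarith
    have h4 : κ / 4 * (s - 1) ≤ z / β := by
      have h5 : β * β ≤ 2 * (s + 1) := by
        have h6 : β * β ≤ (r + 1) * (r + 1) := mul_self_le_mul_self hβ0.le hβn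
        nlinarith [sq_nonneg (r - 1)]
      have h6 : z / β = κ * L / (2 * (β * β)) := by
        rw [hz]
        field_simp
      rw [h6, le_div_iff₀ (by positivity)]
      rcases le_or_gt s 1 with hs1 | hs1
      · have : κ / 4 * (s - 1) * (2 * (β * β)) ≤ 0 := by
          apply mul_nonpos_of_nonpos_of_nonneg _ (by positivity)
          apply mul_nonpos_of_nonneg_of_nonpos (by positivity)
          linarith
        have : 0 ≤ κ * L := by positivity
        linarith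
      · calc κ / 4 * (s - 1) * (2 * (β * β)) ≤ κ / 4 * (s - 1) * (2 * (2 * (s + 1))) := by
              have : 0 ≤ κ / 4 * (s - 1) := mul_nonneg (by positivity) (by linarith)
              gcongr
          _ = κ * (s * s - 1) := by ring
          _ ≤ κ * L := by
              rw [hss]
              apply mul_le_mul_of_nonneg_left _ hκ.le
              linarith
    linarith
  have hE : Real.exp (-(κ / 8 * s)) * Real.exp (-(κ / 8 * s)) = Real.exp (-(κ / 4 * s)) := by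
    rw [← Real.exp_add]
    congr 1
    ring
  -- the share of the words which miss a word
  have h3 : (β - 1) ^ l * (1 / β ^ l) ≤ Real.exp (1 + κ) * Real.exp (-(κ / 4 * s)) := by
    have e1 : (β - 1) ^ l * (1 / β ^ l) = (1 - 1 / β) ^ l := by
      rw [mul_one_div, ← div_pow]
      congr 1
      field_simp
    have e2 : (1 - 1 / β) ^ l ≤ Real.exp (-(l / β)) := by
      have : 1 - 1 / β ≤ Real.exp (-(1 / β)) := by
        have := Real.add_one_le_exp (-(1 / β))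
        linarith
      calc (1 - 1 / β) ^ l ≤ (Real.exp (-(1 / β))) ^ l := by
            apply pow_le_pow_left₀ _ this
            rw [sub_nonneg, div_le_one hβ0]
            exact hβ1
        _ = Real.exp (-(l / β)) := by
            rw [← Real.exp_nat_mul]
            congr 1
            ring
    rw [e1]
    refine e2.trans ?_
    rw [← Real.exp_add, Real.exp_le_exp]
    linarith
  have h4 : (β - 1) ^ l * (D * (M : ℝ) ^ (-κ)) ≤ D * (Real.exp (1 + κ) * Real.exp (-(κ / 4 * s))) := by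
    have e1 : (β - 1) ^ l ≤ Real.exp (κ * L / 2) :=
      (pow_le_pow_left₀ (by linarith) (by linarith) l).trans h1
    have e2 : Real.exp (κ * L / 2) * Real.exp (-(κ * L)) ≤ Real.exp (1 + κ) * Real.exp (-(κ / 4 * s)) := by
      rw [← Real.exp_add, ← Real.exp_add, Real.exp_le_exp]
      have : s ≤ 1 + L := by nlinarith
      nlinarith
    rw [hMκ]
    calc (β - 1) ^ l * (D * Real.exp (-(κ * L))) ≤ Real.exp (κ * L / 2) * (D * Real.exp (-(κ * L))) := by
          gcongr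
      _ = D * (Real.exp (κ * L / 2) * Real.exp (-(κ * L))) := by ring
      _ ≤ _ := by gcongr
  have h5 : β * Real.exp (-(κ / 4 * s)) ≤ (8 / κ + 2) * Real.exp (-(κ / 8 * s)) := by
    rw [← hE, ← mul_assoc]
    apply mul_le_mul_of_nonneg_right _ (Real.exp_pos _).le
    have h6 : β ≤ s + 2 := by nlinarith [sq_nonneg (r - 1)]
    have h7 : 1 + κ / 8 * s ≤ Real.exp (κ / 8 * s) := by
      have := Real.add_one_le_exp (κ / 8 * s)
      linarith
    have h8 : s + 2 ≤ (8 / κ + 2) * (1 + κ / 8 * s) := by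
      have e : (8 / κ + 2) * (1 + κ / 8 * s) = s + 2 + 8 / κ + κ / 4 * s := by
        field_simp
        ring
      rw [e]
      have : 0 < 8 / κ := by positivity
      have : 0 < κ / 4 * s := by positivity
      linarith
    have h9 : β ≤ (8 / κ + 2) * Real.exp (κ / 8 * s) :=
      (h6.trans h8).trans (mul_le_mul_of_nonneg_left h7 (by positivity))
    calc β * Real.exp (-(κ / 8 * s)) ≤ (8 / κ + 2) * Real.exp (κ / 8 * s) * Real.exp (-(κ / 8 * s)) :=
          mul_le_mul_of_nonneg_right h9 (Real.exp_pos _).le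
      _ = 8 / κ + 2 := by
          rw [mul_assoc, ← Real.exp_add, add_neg_cancel, Real.exp_zero, mul_one]
  calc β * ((β - 1) ^ l * (1 / β ^ l + D * (M : ℝ) ^ (-κ)))
      = β * ((β - 1) ^ l * (1 / β ^ l) + (β - 1) ^ l * (D * (M : ℝ) ^ (-κ))) := by ring
    _ ≤ β * (Real.exp (1 + κ) * Real.exp (-(κ / 4 * s)) +
        D * (Real.exp (1 + κ) * Real.exp (-(κ / 4 * s)))) := by gcongr
    _ = (β * Real.exp (-(κ / 4 * s))) * (Real.exp (1 + κ) * (1 + D)) := by ring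
    _ ≤ ((8 / κ + 2) * Real.exp (-(κ / 8 * s))) * (Real.exp (1 + κ) * (1 + D)) := by gcongr
    _ = _ := by ring

/-- **Dense orbits in well distributed families.** -/
theorem dense_fam (b : ℕ) (hb : 2 ≤ b) (κ : ℝ) (hκ : 0 < κ) :
    ∃ c C : ℝ, 0 < c ∧ 0 < C ∧ ∀ (ι : Type) (M : ℕ), 2 ≤ M → ∀ (S : Finset ι) (z : ι → ℝ) (P D : ℝ),
      0 ≤ P → 0 ≤ D →
      (∀ q0 : ℕ, ∃ q, q0 ≤ q ∧ ∀ s t : ℝ, 0 ≤ s → s < t → t ≤ 1 →
        ((S.filter fun i => s ≤ Int.fract (z i * (b : ℝ) ^ q) ∧ Int.fract (z i * (b : ℝ) ^ q) < t).card : ℝ) ≤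
          P * ((t - s) + D * (M : ℝ) ^ (-κ))) →
      ((S.filter fun i => ¬ Dn (2 * b / (Real.log M) ^ (1 / 4 : ℝ)) b (z i)).card : ℝ) ≤
        C * (1 + D) * Real.exp (-(c * Real.sqrt (Real.log M))) * P := by
  obtain ⟨c, C, hc, hC, h⟩ := grow b hb κ hκ
  refine ⟨c, C, hc, hC, fun ι M hM S z P D hP hD hq => ?_⟩
  obtain ⟨k, l, hk, hl⟩ := h M hM
  have hM0 : (0 : ℝ) < M := by
    have : (2 : ℝ) ≤ M := by exact_mod_cast hM
    linarith
  have hb0 : (0 : ℝ) < b := by positivity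
  have hbK : (0 : ℝ) < (b : ℝ) ^ (k * l) := by positivity
  have h1 : ((S.filter fun i => ¬ ∀ w : ℤ, 0 ≤ w → w < (b : ℤ) ^ k →
      {q : ℕ | word b k (z i) q = w}.Infinite).card : ℝ) ≤
      C * (1 + D) * Real.exp (-(c * Real.sqrt (Real.log M))) * P := by
    apply inf_often S z b k l
    intro q0
    obtain ⟨q, hq1, hq2⟩ := hq q0
    refine ⟨q, hq1, ?_⟩
    refine (miss S z b hb k l q (P * (1 / (b : ℝ) ^ (k * l) + D * (M : ℝ) ^ (-κ))) (by positivity)
      fun v hv0 hv1 => ?_).trans ?_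
    · have hvR0 : (0 : ℝ) ≤ (v : ℝ) := by exact_mod_cast hv0
      have hvR1 : (v : ℝ) + 1 ≤ (b : ℝ) ^ (k * l) := by exact_mod_cast hv1
      have h2 := hq2 ((v : ℝ) / (b : ℝ) ^ (k * l)) (((v : ℝ) + 1) / (b : ℝ) ^ (k * l))
        (by positivity) (by gcongr; linarith) ((div_le_one hbK).2 hvR1)
      have e1 : ((v : ℝ) + 1) / (b : ℝ) ^ (k * l) - (v : ℝ) / (b : ℝ) ^ (k * l) =
        1 / (b : ℝ) ^ (k * l) := by ring
      rw [e1] at h2
      refine le_trans (le_of_eq ?_) h2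
      congr 2
      refine filter_congr fun i _ => ?_
      rw [word_eq b hb, Int.floor_eq_iff, div_le_iff₀ hbK, lt_div_iff₀ hbK]
    · calc (b : ℝ) ^ k * (((b : ℝ) ^ k - 1) ^ l * (P * (1 / (b : ℝ) ^ (k * l) + D * (M : ℝ) ^ (-κ))))
          = ((b : ℝ) ^ k * (((b : ℝ) ^ k - 1) ^ l * (1 / (b : ℝ) ^ (k * l) + D * (M : ℝ) ^ (-κ)))) * P := by
            ring
        _ ≤ _ := mul_le_mul_of_nonneg_right (hl D hD) hP
  refine le_trans (Nat.cast_le.2 (card_le_card fun i hi => ?_)) h1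
  rw [mem_filter] at hi ⊢
  exact ⟨hi.1, fun hall => hi.2 (Dn_mono hk (Dn_of_words b hb k (z i) hall))⟩

lemma pts_all {n : ℕ} (M : ℕ) (Ω : Fin n → (Fin n → ℕ) → Prop) (h : ∀ j a, Ω j a) :
    pts M Ω = cube n M := by
  unfold pts
  ext u
  rw [mem_filter]
  exact ⟨fun h' => h'.1, fun h' => ⟨h', fun j => h j u⟩⟩

/-- the same for all bases up to `B` -/
def DnAll (ρ : ℝ) (B : ℕ) (z : ℝ) : Prop := ∀ b, 2 ≤ b → b ≤ B → Dn ρ b z

/-- all bases up to `B` -/
lemma bases {ι : Type} (S : Finset ι) (z : ι → ℝ) (P E : ℝ) (hP : 0 ≤ P) (L ρ : ℝ) (B : ℕ)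
    (c C : ℕ → ℝ) (c0 : ℝ) (hc0 : ∀ b, b ≤ B → c0 ≤ c b) (hC : ∀ b, 0 ≤ C b)
    (hE : ∑ b ∈ Icc 2 B, C b ≤ E) (hρ : ∀ b, b ≤ B → 2 * b / L ^ (1 / 4 : ℝ) ≤ ρ)
    (h : ∀ b, 2 ≤ b → b ≤ B → ((S.filter fun i => ¬ Dn (2 * b / L ^ (1 / 4 : ℝ)) b (z i)).card : ℝ) ≤
      C b * Real.exp (-(c b * Real.sqrt L)) * P) :
    ((S.filter fun i => ¬ DnAll ρ B (z i)).card : ℝ) ≤
      E * Real.exp (-(c0 * Real.sqrt L)) * P := by
  have hsub : (S.filter fun i => ¬ DnAll ρ B (z i)) ⊆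
      (Icc 2 B).biUnion fun b => S.filter fun i => ¬ Dn (2 * b / L ^ (1 / 4 : ℝ)) b (z i) := by
    intro i hi
    rw [mem_filter] at hi
    obtain ⟨hi1, hi2⟩ := hi
    unfold DnAll at hi2
    push Not at hi2
    obtain ⟨b, hb1, hb2, hb3⟩ := hi2
    rw [mem_biUnion]
    refine ⟨b, mem_Icc.2 ⟨hb1, hb2⟩, ?_⟩
    rw [mem_filter]
    exact ⟨hi1, fun hd => hb3 (Dn_mono (hρ b hb2) hd)⟩
  have h1 : ((S.filter fun i => ¬ DnAll ρ B (z i)).card : ℝ) ≤
      ∑ b ∈ Icc 2 B, ((S.filter fun i => ¬ Dn (2 * b / L ^ (1 / 4 : ℝ)) b (z i)).card : ℝ) := by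
    exact_mod_cast (card_le_card hsub).trans card_biUnion_le
  refine h1.trans ?_
  have hs0 : 0 ≤ Real.sqrt L := Real.sqrt_nonneg L
  calc ∑ b ∈ Icc 2 B, ((S.filter fun i => ¬ Dn (2 * b / L ^ (1 / 4 : ℝ)) b (z i)).card : ℝ)
      ≤ ∑ b ∈ Icc 2 B, C b * (Real.exp (-(c0 * Real.sqrt L)) * P) := by
        refine sum_le_sum fun b hb => ?_
        rw [mem_Icc] at hb
        refine (h b hb.1 hb.2).trans ?_
        rw [mul_assoc]
        apply mul_le_mul_of_nonneg_left _ (hC b)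
        apply mul_le_mul_of_nonneg_right _ hP
        rw [Real.exp_le_exp]
        have := mul_le_mul_of_nonneg_right (hc0 b hb.2) hs0
        linarith
    _ = (∑ b ∈ Icc 2 B, C b) * (Real.exp (-(c0 * Real.sqrt L)) * P) := by rw [sum_mul]
    _ ≤ E * (Real.exp (-(c0 * Real.sqrt L)) * P) := by gcongr
    _ = _ := by ring

end Pool.Agent.Run7.h566.FD
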